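import Pool.Agent.H96au.Hat

/-!
# The automorphism group of the random substitution subshift is not residually finite

The substitution is a to abaa or aaba, b to abab or baba; the letter a is false, the letter b is
true. The definitions W, Inflates, Lev, Legal, fac and X are in Pool.Agent.H96au.Defs.
-/

namespace Pool.Agent.Results.MP_771d0b_an.NotResiduallyFinite

open Pool.Agent.H96au

/-- The subshift as a type. -/
def XT : Type := X

/-- The topology of XT: the subspace topology of the product topology. -/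
instance instTop : TopologicalSpace XT := inferInstanceAs (TopologicalSpace X)

/-- Translation by j on the subshift: the point x goes to the point n ↦ x (n + j). -/
def sh (j : ℤ) (x : XT) : XT := ⟨fun n => x.1 (n + j), shift_mem x.2 j⟩

lemma continuous_sh (j : ℤ) : Continuous (sh j) := by
  refine Continuous.subtype_mk (p := fun x => x ∈ X) (f := fun (x : X) n => x.1 (n + j))
    (continuous_pi fun n => ?_) _
  exact (continuous_apply (n + j)).comp continuous_subtype_val

lemma sh_sh (i j : ℤ) (h : i + j = 0) (x : XT) : sh i (sh j x) = x := by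
  apply Subtype.ext
  funext n
  show x.1 (n + i + j) = x.1 n
  rw [add_assoc, h, add_zero]

lemma sh_left (x : XT) : sh (-1) (sh 1 x) = x := sh_sh _ _ (by norm_num) x

lemma sh_right (x : XT) : sh 1 (sh (-1) x) = x := sh_sh _ _ (by norm_num) x

/-- The left shift of the subshift. -/
def shiftX : XT ≃ₜ XT :=
  { toFun := sh 1
    invFun := sh (-1)
    left_inv := sh_left
    right_inv := sh_right
    continuous_toFun := continuous_sh 1
    continuous_invFun := continuous_sh (-1) }

/-- The automorphisms: the homeomorphisms of the subshift commuting with the shift. -/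
def AutSub : Subgroup (XT ≃ₜ XT) := Subgroup.centralizer {shiftX}

/-- The automorphism group as a type. -/
def AutX : Type := AutSub

/-- The automorphism group is a group under composition. -/
instance instGroupAut : Group AutX := inferInstanceAs (Group AutSub)

/-- Residual finiteness. -/
def ResiduallyFinite (G : Type) [Group G] : Prop :=
  ∀ g : G, g ≠ 1 → ∃ (F : Type) (_ : Group F) (_ : Finite F) (φ : G →* F), φ g ≠ 1

/-- The map of a local rule. -/
noncomputable def hX (L : Loc) : XT → XT := hat L

lemma continuous_hX (L : Loc) : Continuous (hX L) := continuous_hat L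

lemma hX_twice (x : XT) : (hX LF)^[2] x = x := LF_twice x

lemma hX_roots (k : ℕ) : ∃ L : Loc, ∀ x : XT, (hX L)^[2 ^ k] x = hX LF x := exists_roots k

lemma hX_shift (L : Loc) (x : XT) : hX L (sh 1 x) = sh 1 (hX L x) := by
  apply Subtype.ext
  show hatf L (fun n => x.1 (n + 1)) = fun n => hatf L x.1 (n + 1)
  exact hatf_shift L x.2 1

lemma exists_aut (L : Loc) (m : ℕ) (h : ∀ x : XT, (hX L)^[m + 1] x = x) :
    ∃ f : AutX, ∀ x : XT, (f.1 : XT ≃ₜ XT) x = hX L x := by
  have hc : Continuous (hX L) := continuous_hX L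
  let e : XT ≃ₜ XT :=
    { toFun := hX L
      invFun := (hX L)^[m]
      left_inv := fun x => by
        rw [← Function.iterate_succ_apply]
        exact h x
      right_inv := fun x => by
        rw [← Function.iterate_succ_apply' (hX L) m x]
        exact h x
      continuous_toFun := hc
      continuous_invFun := hc.iterate m }
  refine ⟨⟨e, Subgroup.mem_centralizer_singleton_iff.2 (Homeomorph.ext fun x => ?_)⟩,
    fun x => rfl⟩
  exact hX_shift L x

lemma pow_apply (f : AutX) (F : XT → XT) (h : ∀ x, (f.1 : XT ≃ₜ XT) x = F x) (n : ℕ) (x : XT) :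
    ((f ^ n : AutX).1 : XT ≃ₜ XT) x = F^[n] x := by
  induction n generalizing x with
  | zero => rfl
  | succ n ih =>
    rw [pow_succ, Function.iterate_succ_apply, ← ih, ← h]
    rfl

lemma ext_aut {f g : AutX} (h : ∀ x, (f.1 : XT ≃ₜ XT) x = (g.1 : XT ≃ₜ XT) x) : f = g :=
  Subtype.ext (Homeomorph.ext h)

/-- A fixed point of the substitution a to abaa, b to abab. -/
def fx (n : ℤ) : Bool :=
  if h : n = 0 ∨ n = -1 then false else Wf (fx (n / 4)) false (n % 4)
termination_by n.natAbs
decreasing_by omega

lemma fx_eq (n : ℤ) : fx n = Wf (fx (n / 4)) false (n % 4) := by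
  by_cases h : n = 0 ∨ n = -1
  · have h0 : fx 0 = false := by rw [fx]; simp
    have h1 : fx (-1) = false := by rw [fx]; simp
    rcases h with rfl | rfl
    · rw [h0]
      simp [Wf, h0]
    · rw [h1, show (-1 : ℤ) / 4 = -1 by norm_num, show (-1 : ℤ) % 4 = 3 by norm_num, h1]
      simp [Wf]
  · rw [fx, dif_neg h]

lemma fx_dec : Dec fx 0 fx (fun _ => false) := by
  have h : fx = rcp 0 fx (fun _ => false) := by
    funext n
    rw [fx_eq]
    simp only [rcp, sub_zero]
  conv => arg 1; rw [h]
  exact dec_rcp _ _ _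

lemma fx_mem : fx ∈ X := by
  have key : ∀ k : ℕ, Legal (fac fx (-(4 ^ k : ℕ)) (2 * 4 ^ k)) := by
    intro k
    induction k with
    | zero =>
      have h0 : fx 0 = false := by rw [fx]; simp
      have h1 : fx (-1) = false := by rw [fx]; simp
      refine ⟨1, [false, true, false, false], ⟨[false], rfl, ?_⟩, ⟨[false, true], [], ?_⟩⟩
      · exact Inflates.cons false false [] [] Inflates.nil
      · simp [fac, List.range_succ, h0, h1]
    | succ k ih =>
      have h := ih.inflate (fx_dec.inflates (-(4 ^ k : ℕ)) (2 * 4 ^ k))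
      convert h using 2
      · push_cast
        ring
      · ring
  intro i n
  have hbig : ∀ m : ℕ, m ≤ 4 ^ m := fun m => (Nat.lt_pow_self (by norm_num)).le
  refine (key (i.natAbs + n)).sub (fac_sub _ _ _ _ _ ?_ ?_)
  · have := hbig (i.natAbs + n)
    omega
  · have := hbig (i.natAbs + n)
    push_cast
    have h2 : ((i.natAbs + n : ℕ) : ℤ) ≤ ((4 ^ (i.natAbs + n) : ℕ) : ℤ) := by exact_mod_cast this
    push_cast at h2
    have h3 : i ≤ |i| := le_abs_self i
    omega

open Classical in
lemma LF_of_Sp {y c : ℤ → Bool} {i : ℤ} (hs : Sp y c i) : LF.G y c i = !(c i) := by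
  show (if Sp y c i then !(c i) else c i) = _
  rw [if_pos hs]

/-- The involution moves a point. -/
lemma moved : ∃ x : XT, hX LF x ≠ x := by
  obtain ⟨t, _, ht⟩ := window fx_mem 0 false
  rw [zero_add] at ht
  have hd := fx_dec (t : ℤ)
  rw [ht] at hd
  simp only [zero_add, Bool.false_and, Bool.not_false] at hd
  set c : ℤ → Bool := fun n => decide (4 * (t : ℤ) + 1 < n) with hc
  have hx := mem_of_dec (dec_rcp 0 fx c) fx_mem
  refine ⟨⟨rcp 0 fx c, hx⟩, fun h => ?_⟩
  have h1 := dec_hatf LF (dec_rcp 0 fx c) fx_mem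
  have h2 : hatf LF (rcp 0 fx c) = rcp 0 fx c := congrArg Subtype.val h
  rw [h2] at h1
  have h3 := (h1.unique (dec_rcp 0 fx c)).2
  have hs : Sp fx c (4 * (t : ℤ) + 1) := by
    refine ⟨hd.2.1, ?_, ?_, ?_, ?_⟩
    · rw [add_sub_cancel_right]; exact hd.1
    · simp [hc]
    · rw [show 4 * (t : ℤ) + 1 + 1 = 4 * t + 2 by ring]; exact hd.2.2.1
    · simp [hc]
  have h4 := congrFun h3 (4 * (t : ℤ) + 1)
  have h5 : LF.G fx c (4 * (t : ℤ) + 1) = !(c (4 * (t : ℤ) + 1)) := LF_of_Sp hs
  rw [h5] at h4
  simp at h4

/-- There is an involution f of the subshift, different from the identity, which has a root of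
order 2 ^ k for every k and therefore lies in every subgroup of finite index; hence the
automorphism group is not residually finite. -/
theorem result :
    (∃ f : AutX, f ≠ 1 ∧ f * f = 1 ∧ (∀ k : ℕ, ∃ g : AutX, g ^ (2 ^ k) = f) ∧
      ∀ H : Subgroup AutX, H.FiniteIndex → f ∈ H) ∧
    ¬ ResiduallyFinite AutX := by
  obtain ⟨f, hf⟩ := exists_aut LF 1 hX_twice
  have hff : f * f = 1 := by
    rw [← pow_two]
    apply ext_aut
    intro x
    rw [pow_apply f _ hf, hX_twice]
    rfl
  have hne : f ≠ 1 := by
    intro h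
    obtain ⟨x, hx⟩ := moved
    apply hx
    rw [← hf, h]
    rfl
  have hroot : ∀ k : ℕ, ∃ g : AutX, g ^ (2 ^ k) = f := by
    intro k
    obtain ⟨L, hL⟩ := hX_roots k
    have h2 : ∀ x : XT, (hX L)^[(2 ^ (k + 1) - 1) + 1] x = x := by
      intro x
      rw [Nat.sub_add_cancel Nat.one_le_two_pow, pow_succ, Function.iterate_mul]
      have h3 : (hX L)^[2 ^ k] = hX LF := funext hL
      rw [h3]
      exact hX_twice x
    obtain ⟨g, hg⟩ := exists_aut L _ h2
    refine ⟨g, ext_aut fun x => ?_⟩
    rw [pow_apply g _ hg, hL, hf]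
  have hkill : ∀ (F : Type) (_ : Group F) (_ : Finite F) (φ : AutX →* F), φ f = 1 := by
    intro F _ _ φ
    obtain ⟨r, m, hm, hcard⟩ := Nat.exists_eq_two_pow_mul_odd (n := Nat.card F)
      (Nat.card_pos.ne')
    obtain ⟨g, hg⟩ := hroot r
    have h1 : (φ f) ^ m = 1 := by
      rw [← hg, map_pow, ← pow_mul, ← hcard]
      exact pow_card_eq_one'
    have h2 : (φ f) ^ 2 = 1 := by
      rw [← map_pow, pow_two, hff, map_one]
    obtain ⟨s, hs⟩ := hm
    rw [hs, pow_succ, pow_mul, h2, one_pow, one_mul] at h1
    exact h1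
  refine ⟨⟨f, hne, hff, hroot, fun H hH => ?_⟩, fun h => ?_⟩
  · have h1 := hkill (Equiv.Perm (AutX ⧸ H)) _ inferInstance (MulAction.toPermHom AutX (AutX ⧸ H))
    have h2 : f • ((1 : AutX) : AutX ⧸ H) = ((1 : AutX) : AutX ⧸ H) := by
      have h3 := congrFun (congrArg DFunLike.coe h1) ((1 : AutX) : AutX ⧸ H)
      exact h3
    rw [MulAction.Quotient.smul_coe, smul_eq_mul, mul_one] at h2
    have h4 := QuotientGroup.eq.1 h2.symm
    simpa using h4
  · obtain ⟨F, iF, fF, φ, hφ⟩ := h f hne
    exact hφ (hkill F iF fF φ)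

end Pool.Agent.Results.MP_771d0b_an.NotResiduallyFinite
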